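import Pool.Agent.Helper3.KL.Form
import Pool.Agent.Helper24.PR.Ovl
import Pool.Agent.Helper52.SL.Ext
import Pool.Agent.Helper83.GR.Ovr

/-! K-LABELS: `ST` FOR K-LABELS. `C` is a literal variable (the deep point) which determines the finest cell of the point,
over the base. For every label `l` without any leak at `C` and without leak at the windows `0` of the types there is a
form, with a label without any leak at `C` and without leak at the windows, whose volume is at most `h(Q | l)`. -/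

set_option autoImplicit false

namespace Pool.Agent.Helper3.KL

open Finset Filter Topology Matrix Pool.Agent.Helper69.RK Pool.Agent.Helper31.EC Pool.Agent.Helper31.EC.Sp
open Pool.Agent.Helper40.EL Pool.Agent.Helper89.LX Pool.Agent.Helper3.LF Pool.Agent.Helper84.MT
open Pool.Agent.Helper14.MC (gx vx vol_eq vx_UB)
open Pool.Agent.Helper52.SL (cv cv_dg)
open Pool.Agent.Helper36.AM (STu)

noncomputable section

variable {S T : Sp} {M D : ℕ} {E : ℕ → ℕ} {ι κ : Type} {α : ℕ → Type} {C : ∀ k, (S.F k).Ω → α k}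

/-! ### forms over a label -/

/-- a form over a label, as a form of the space -/
def cm (l : Lab S) (y : ∀ k, FD ((l.ovr 1 one_pos).F k) (Mon M D)) : ∀ k, FD (S.F k) (Mon M D) := fun k =>
  Pool.Agent.Helper83.GR.cmpF l y k

theorem cm_leak (l : Lab S) (y : ∀ k, FD ((l.ovr 1 one_pos).F k) (Mon M D)) (k : ℕ) (x : FL (S.F k)) :
    (cm l y k).l.leak x ≤ (l k).leak x + (y k).l.leak ((l k).up 1 one_pos x) :=
  (l k).comp_leak_le 1 one_pos (y k).l x

theorem ovr_n1 (l : Lab S) (k : ℕ) : ((l.ovr 1 one_pos).F k).n = (S.F k).n := by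
  rw [l.n_over, one_mul]

theorem ovr_dl (l : Lab S) (k : ℕ) : (l.ovr 1 one_pos).dl 1 k = S.dl 1 k := by
  unfold Sp.dl
  rw [ovr_n1]

theorem cv_v (l : Lab S) (Q : S.VV M) (k : ℕ) (ω : (l k).T.Ω) : (cv l Q).v k ω = Q.v k ((l k).p.π ω) := rfl

theorem phi_cv (l : Lab S) (Q : S.VV M) (k : ℕ) (ω : ((l.ovr 1 one_pos).F k).Ω)
    (A : Matrix (Mon M D) (Mon M D) ℝ) : (gaq (cv l Q) D).φ k ω A = (gaq Q D).φ k ((l k).p.π ω) A := by
  have e1 : (gaq (cv l Q) D).φ k ω A = phi ((l.ovr 1 one_pos).dl 1 k) A ((cv l Q).v k ω) := rfl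
  have e2 : (gaq Q D).φ k ((l k).p.π ω) A = phi (S.dl 1 k) A (Q.v k ((l k).p.π ω)) := rfl
  rw [e1, e2, ovr_dl]
  rfl

theorem cp_cv (l : Lab S) (Q : S.VV M) (k : ℕ) : (gaq (cv l Q) D).cp k = (gaq Q D).cp k := by
  have h1 : (gaq (cv l Q) D).C = (gaq Q D).C := rfl
  unfold Gau.cp
  rw [h1, ovr_n1]

theorem cm_fm {l : Lab S} {Q : S.VV M} {y : ∀ k, FD ((l.ovr 1 one_pos).F k) (Mon M D)} (hy : (gaq (cv l Q) D).Fm y) :
    (gaq Q D).Fm (cm l y) := by
  intro η hη
  filter_upwards [hy η hη] with k hk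
  obtain ⟨a1, a2, a3⟩ := hk
  rw [cp_cv] at a1
  refine ⟨a1, ?_, ?_⟩
  · refine le_trans (le_of_eq ?_) a2
    show (y k).l.T.pb _ = (y k).l.T.pb _
    congr 1
    funext ω
    rw [phi_cv, ovr_n1]
    rfl
  · refine le_trans (le_of_eq ?_) a3
    show (y k).l.T.pb _ = (y k).l.T.pb _
    congr 1
    funext ω
    rw [phi_cv, ovr_n1]
    rfl

theorem cm_vol {l : Lab S} {Q : S.VV M} (y : ∀ k, FD ((l.ovr 1 one_pos).F k) (Mon M D)) :
    vol Q D (cm l y) = vol (cv l Q) D y := by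
  have h1 : vx Q (cm l y) = vx (cv l Q) y := by
    funext k
    apply Finset.sum_congr rfl
    intro ω _
    have e1 : gx (cv l Q) k ((y k).l.p.π ω) ((y k).g ω) =
        Real.logb 2 (GQ ((l.ovr 1 one_pos).dl 1 k) ((y k).g ω) ((cv l Q).v k ((y k).l.p.π ω))) /
          (2 * ((l.ovr 1 one_pos).F k).n) := rfl
    rw [e1, ovr_dl, ovr_n1]
    rfl
  rw [vol_eq, vol_eq, h1]

/-! ### the system over a label -/

/-- the system over a label -/
def rel (s : MSys S M E ι) (l : Lab S) (hl : ∀ i, Nul S (fun k => (l k).leak ((s.lf i).win 0 k))) :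
    MSys (l.ovr 1 one_pos) M E ι := Pool.Agent.Helper24.PR.ovl s l hl

theorem rel_Q (s : MSys S M E ι) (l : Lab S) (hl : ∀ i, Nul S (fun k => (l k).leak ((s.lf i).win 0 k))) :
    (rel s l hl).Q = cv l s.Q := rfl

theorem rel_cnd (s : MSys S M E ι) (l : Lab S) (hl : ∀ i, Nul S (fun k => (l k).leak ((s.lf i).win 0 k))) (c : ℝ)
    (i : Option ι) (k : ℕ) : (rel s l hl).cnd c i k = (l k).up 1 one_pos (s.cnd c i k) :=
  congrFun (congrFun (Pool.Agent.Helper24.PR.cnd_ovl s l hl c) i) k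

/-- the literal variable over a label -/
def rc (l : Lab S) (C : ∀ k, (S.F k).Ω → α k) : ∀ k, ((l.ovr 1 one_pos).F k).Ω → α k := fun k ω => C k ((l k).p.π ω)

theorem rc_kp (l : Lab S) (C : ∀ k, (S.F k).Ω → α k) (k : ℕ) : kp (rc l C) k = (l k).up 1 one_pos (kp C k) := rfl

theorem rc_dtm (l : Lab S) {Q : S.VV M} (hC : Dtm Q C) : Dtm (cv l Q) (rc l C) := by
  filter_upwards [hC] with k hk ω ω' h h' hZ e
  have h1 := hk ((l k).p.π ω) ((l k).p.π ω') ((l k).p.supp ω h) ((l k).p.supp ω' h')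
    (((l k).p.hZ ω ω' h h').1 hZ.2) e
  have h2 : (cv l Q).cellv 1 k = (l.pj.vv Q).cellv 1 k := cellv_bas l.V (l.pj.vv Q) 1 k
  rw [h2, vv_cellv]
  exact h1

/-! ### ST for K-labels -/

/-- the volumes of all extensions by copies -/
theorem ext_vol_le {g : ℕ} (hST : ∀ r, STm D M (lin g) (Fin r)) [Finite ι] (s : MSys S M (lin g) ι) (X : CExt s) :
    X.sys.vol D 0 ≤ H (s.Q.dg 1) := by
  have h1 : STm D M (lin g) X.κ := (hST (Nat.card X.κ + 1)).of_le le_rfl
  obtain ⟨x, hx⟩ := X.sys.exists_can D 0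
  have h2 := STm_iff.mp h1 X.T X.sys x hx
  have h3 := H_up1_le (fun k => (x k).l) (X.sys.Q.dg 1)
  have h4 : X.sys.Q.dg 1 = X.P.map (s.Q.dg 1) := (X.P.map_dg s.Q 1).symm
  have h5 := X.P.H_map (s.Q.dg 1)
  rw [h4] at h2 h3
  linarith

/-- without a label -/
theorem stk_bot {g : ℕ} (hST : ∀ r, STm D M (lin g) (Fin r)) [Finite ι] (s : MSys S M (lin g) ι) (hC : Dtm s.Q C) :
    ∃ y : ∀ k, FD (S.F k) (Mon M D), (gaq s.Q D).AdfK (LC.kz (kp C)) (s.cnd 0) y ∧ vol s.Q D y ≤ H (s.Q.dg 1) :=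
  exists_form s hC (fun _ => True) (CExt.pull s (Pj.id S)) trivial (fun _ _ => trivial) (H (s.Q.dg 1)) 0
    (fun X _ => ext_vol_le hST s X)

/-- THE FORM OVER A LABEL: `l` has no leak at the windows `0` of the types. -/
theorem stk_rel {g : ℕ} (hST : ∀ r, STm D M (lin g) (Fin r)) [Finite ι] (s : MSys S M (lin g) ι) (hC : Dtm s.Q C)
    (l : Lab S) (hl : ∀ i, Nul S (fun k => (l k).leak ((s.lf i).win 0 k))) :
    ∃ y : ∀ k, FD ((l.ovr 1 one_pos).F k) (Mon M D), (∀ᶠ k in UF, (y k).l.leak ((l k).up 1 one_pos (kp C k)) = 0) ∧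
      (∀ i, Nul S (fun k => (y k).l.leak ((l k).up 1 one_pos (s.cnd 0 i k)))) ∧ (gaq (cv l s.Q) D).Fm y ∧
      vol (cv l s.Q) D y ≤ H (up1 l (s.Q.dg 1)) := by
  obtain ⟨y, hy, hv⟩ := stk_bot hST (rel s l hl) (C := rc l C) (rc_dtm l hC)
  refine ⟨y, hy.2, fun i => ?_, hy.1.fm, ?_⟩
  · have h1 : Nul (l.ovr 1 one_pos) (fun k => (y k).l.leak ((rel s l hl).cnd 0 i k)) := Gau.Adf.dm _ hy.1 i
    have h2 : (fun k => (y k).l.leak ((rel s l hl).cnd 0 i k)) =
        fun k => (y k).l.leak ((l k).up 1 one_pos (s.cnd 0 i k)) := by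
      funext k
      rw [rel_cnd]
    rw [h2] at h1
    exact (l.nul_over 1 one_pos).mp h1
  · have h1 : (rel s l hl).Q.dg 1 = up1 l (s.Q.dg 1) := cv_dg l s.Q 1
    rw [h1] at hv
    exact hv

/-- ST FOR K-LABELS, general form: the label `l` has no leak at the windows `0` of the types and no leak at all at `C`;
the form has no leak at all at `C`, and its leaks are at most the leaks of `l` up to `o(n)` -/
theorem stk_form {g : ℕ} (hST : ∀ r, STm D M (lin g) (Fin r)) [Finite ι] (s : MSys S M (lin g) ι) (hC : Dtm s.Q C)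
    (l : Lab S) (hl : ∀ i, Nul S (fun k => (l k).leak ((s.lf i).win 0 k)))
    (hK : (LC.kz (kp C)).ev l) :
    ∃ y : ∀ k, FD (S.F k) (Mon M D), (LC.kz (kp C)).ev (fun k => (y k).l) ∧
      (∀ i, Nul S (fun k => (y k).l.leak ((s.lf i).win 0 k))) ∧
      (Nul S (fun k => (l k).leak (pcd s.Q k)) → Nul S (fun k => (y k).l.leak (pcd s.Q k))) ∧ (gaq s.Q D).Fm y ∧
      vol s.Q D y ≤ H (up1 l (s.Q.dg 1)) := by
  obtain ⟨y, h1, h2, h3, h4⟩ := stk_rel hST s hC l hl
  have key : ∀ i, Nul S (fun k => (l k).leak (s.cnd 0 i k)) → Nul S (fun k => (cm l y k).l.leak (s.cnd 0 i k)) := by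
    intro i hi
    apply (hi.add (h2 i)).of_le (Eventually.of_forall fun k => FLab.leak_nonneg _ _)
    exact Eventually.of_forall fun k => cm_leak l y k _
  refine ⟨cm l y, ?_, fun i => key (some i) (hl i), key none, cm_fm h3, ?_⟩
  · filter_upwards [h1, hK] with k a b
    apply le_antisymm _ (FLab.leak_nonneg _ _)
    have h5 := cm_leak l y k (kp C k)
    have b' : (l k).leak (kp C k) = 0 := b
    rw [a, b', add_zero] at h5
    exact h5
  · rw [cm_vol]
    exact h4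

/-- `ST` FOR K-LABELS (kernels from the cell of the point): the K-optimal form of degree `D` at the window `0` has volume
at most `h(Q | l)` for every K-label `l` -/
theorem stk (hST : STu M) (g : ℕ) : ∃ D₁ : ℕ, ∀ D, D₁ ≤ D → ∀ (ι : Type) [Finite ι] (S : Sp) (s : MSys S M (lin g) ι)
    (α : ℕ → Type) (C : ∀ k, (S.F k).Ω → α k) (_ : Dtm s.Q C) (l : Lab S) (_ : s.DMc 0 l) (_ : (LC.kz (kp C)).ev l)
    (x : ∀ k, FD (S.F k) (Mon M D)) (_ : (gaq s.Q D).OptfK (LC.kz (kp C)) (s.cnd 0) x),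
    vol s.Q D x ≤ H (up1 l (s.Q.dg 1)) := by
  obtain ⟨D₁, hD⟩ := hST g
  refine ⟨D₁, fun D hD' ι _ S s α C hC l hl hK x hx => ?_⟩
  obtain ⟨y, h1, h2, h3, h4, h5⟩ := stk_form (hD D hD') s hC l (fun i => hl (some i)) hK
  refine (vol_optK_le hx ⟨Gau.Adf_iff.2 ⟨fun i => ?_, h4⟩, h1⟩).trans h5
  rcases i with _ | i
  · exact h3 (hl none)
  · exact h2 i

end

end Pool.Agent.Helper3.KL
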