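import Pool.Agent.Helper3.KL.Stk

/-! K-LABELS: `ST` for K-labels, forms for the consumers: deep point given by partitions, any family of conditions, the
cell of the point. -/

set_option autoImplicit false

namespace Pool.Agent.Helper3.KL

open Finset Filter Topology Matrix Pool.Agent.Helper69.RK Pool.Agent.Helper31.EC Pool.Agent.Helper31.EC.Sp
open Pool.Agent.Helper40.EL Pool.Agent.Helper89.LX Pool.Agent.Helper3.LF Pool.Agent.Helper84.MT
open Pool.Agent.Helper36.AM (STu)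

noncomputable section

variable {S T : Sp} {M D : ℕ} {E : ℕ → ℕ} {ι κ : Type} {α : ℕ → Type} {C : ∀ k, (S.F k).Ω → α k}

/-! ### partitions as literal variables -/

/-- the literal variable of partitions -/
def qv (R : ∀ k, Setoid (S.F k).Ω) : ∀ k, (S.F k).Ω → Quotient (R k) := fun k ω => Quotient.mk (R k) ω

theorem ker_qv (R : ∀ k, Setoid (S.F k).Ω) (k : ℕ) : Setoid.ker (qv R k) = R k := by
  ext ω ω'
  exact Quotient.eq (r := R k)

theorem kp_qv (R : ∀ k, Setoid (S.F k).Ω) : kp (qv R) = fun k => fc (R k) := by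
  funext k
  unfold kp
  rw [ker_qv]

/-- the finest cell of the point is known to `R` and the base -/
theorem dtm_qv {Q : S.VV M} {R : ∀ k, Setoid (S.F k).Ω} (h : ∀ᶠ k in UF, ∀ ω ω', (S.F k).μ ω ≠ 0 → (S.F k).μ ω' ≠ 0 →
    (S.F k).Z ω ω' → R k ω ω' → Q.cellv 1 k ω = Q.cellv 1 k ω') : Dtm Q (qv R) := by
  filter_upwards [h] with k hk ω ω' a b c d
  exact hk ω ω' a b c (Quotient.exact d)

/-! ### any family of conditions -/

/-- `ST` FOR K-LABELS, deep point `C`, any family `A` of conditions each of which is finer than a window `0` or known to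
`C`: the K-optimal form has volume at most `h(Q | l)` for every label `l` without leak at the windows `0` and without
any leak at `C` -/
theorem stk_fam {g : ℕ} (hST : ∀ r, STm D M (lin g) (Fin r)) [Finite ι] [Finite κ] (s : MSys S M (lin g) ι)
    (hC : Dtm s.Q C) {A : κ → Part S}
    (hA : ∀ j, (∃ i, PLe ((s.lf i).win 0) (A j)) ∨ ∀ᶠ k in UF, kp C k ≤ A j k)
    {l : Lab S} (hl : ∀ i, Nul S (fun k => (l k).leak ((s.lf i).win 0 k))) (hK : (LC.kz (kp C)).ev l)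
    {x : ∀ k, FD (S.F k) (Mon M D)} (hx : (gaq s.Q D).OptfK (LC.kz (kp C)) A x) :
    vol s.Q D x ≤ H (up1 l (s.Q.dg 1)) := by
  obtain ⟨y, h1, h2, _, h4, h5⟩ := stk_form hST s hC l hl hK
  refine (vol_optK_le hx ⟨Gau.Adf_iff.2 ⟨fun j => ?_, h4⟩, h1⟩).trans h5
  rcases hA j with ⟨i, hi⟩ | hj
  · apply ((h2 i).add hi).of_le (Eventually.of_forall fun k => FLab.leak_nonneg _ _)
    exact Eventually.of_forall fun k => FLab.leak_le_leak _ _ _
  · apply (Nul_zero S).of_le (Eventually.of_forall fun k => FLab.leak_nonneg _ _)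
    filter_upwards [hj, h1] with k a b
    exact (FLab.leak_anti _ a).trans_eq b

/-- the form `y` for the conditions `A` -/
theorem stk_ex {g : ℕ} (hST : ∀ r, STm D M (lin g) (Fin r)) [Finite ι] [Finite κ] (s : MSys S M (lin g) ι)
    (hC : Dtm s.Q C) {A : κ → Part S}
    (hA : ∀ j, (∃ i, PLe ((s.lf i).win 0) (A j)) ∨ ∀ᶠ k in UF, kp C k ≤ A j k)
    {l : Lab S} (hl : ∀ i, Nul S (fun k => (l k).leak ((s.lf i).win 0 k))) (hK : (LC.kz (kp C)).ev l) :
    ∃ y : ∀ k, FD (S.F k) (Mon M D), (gaq s.Q D).AdfK (LC.kz (kp C)) A y ∧ vol s.Q D y ≤ H (up1 l (s.Q.dg 1)) := by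
  obtain ⟨x, hx⟩ := (gaq s.Q D).exists_optfK (LC.kz (kp C)) A
  exact ⟨x, hx.1, stk_fam hST s hC hA hl hK hx⟩

/-- deep point given by partitions `R`, conditions `R` and the windows -/
theorem stk_R {g : ℕ} (hST : ∀ r, STm D M (lin g) (Fin r)) [Finite ι] (s : MSys S M (lin g) ι)
    {R : ∀ k, Setoid (S.F k).Ω} (hR : ∀ᶠ k in UF, ∀ ω ω', (S.F k).μ ω ≠ 0 → (S.F k).μ ω' ≠ 0 →
    (S.F k).Z ω ω' → R k ω ω' → s.Q.cellv 1 k ω = s.Q.cellv 1 k ω')
    {A : Option ι → Part S} (hA0 : A none = fun k => fc (R k)) (hA : ∀ i, A (some i) = (s.lf i).win 0)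
    {l : Lab S} (hl : ∀ i, Nul S (fun k => (l k).leak ((s.lf i).win 0 k)))
    (hK : ∀ᶠ k in UF, (l k).leak (fc (R k)) = 0)
    {x : ∀ k, FD (S.F k) (Mon M D)} (hx : (gaq s.Q D).OptfK (LC.kz (fun k => fc (R k))) A x) :
    vol s.Q D x ≤ H (up1 l (s.Q.dg 1)) := by
  have hC := dtm_qv hR
  rw [← kp_qv] at hx
  refine stk_fam hST s hC (A := A) (fun j => ?_) hl ?_ hx
  · rcases j with _ | i
    · refine Or.inr (Eventually.of_forall fun k => ?_)
      rw [hA0, kp_qv]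
    · refine Or.inl ⟨i, ?_⟩
      rw [hA i]
      exact PLe.refl _
  · rw [kp_qv]
    exact hK

/-- kernels from the cell of the point -/
theorem stk_pcd {g : ℕ} (hST : ∀ r, STm D M (lin g) (Fin r)) [Finite ι] (s : MSys S M (lin g) ι)
    {l : Lab S} (hl : s.DMc 0 l) (hK : ∀ᶠ k in UF, (l k).leak (pcd s.Q k) = 0)
    {x : ∀ k, FD (S.F k) (Mon M D)} (hx : (gaq s.Q D).OptfK (LC.kz (pcd s.Q)) (s.cnd 0) x) :
    vol s.Q D x ≤ H (up1 l (s.Q.dg 1)) := by
  refine stk_fam hST s (cel_dtm s.Q) (A := s.cnd 0) (fun j => ?_) (fun i => hl (some i)) hK hx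
  rcases j with _ | i
  · exact Or.inr (Eventually.of_forall fun k => le_rfl)
  · exact Or.inl ⟨i, PLe.refl _⟩

/-- `ST` FOR K-LABELS, over the label of the form -/
theorem stk_opt (hST : STu M) (g : ℕ) : ∃ D₁ : ℕ, ∀ D, D₁ ≤ D → ∀ (ι : Type) [Finite ι] (S : Sp)
    (s : MSys S M (lin g) ι) (x : ∀ k, FD (S.F k) (Mon M D)),
    (gaq s.Q D).OptfK (LC.kz (pcd s.Q)) (s.cnd 0) x → vol s.Q D x ≤ H (up1 (fun k => (x k).l) (s.Q.dg 1)) := by
  obtain ⟨D₁, hD⟩ := hST g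
  exact ⟨D₁, fun D hD' ι _ S s x hx => stk_pcd (hD D hD') s (Gau.AdfK.dm _ hx.1) hx.1.2 hx⟩

end

end Pool.Agent.Helper3.KL
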