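import Pool.Agent.Helper3.KL.Dbl

/-! K-LABELS: forms and volumes at a point which is replaced by a point of the same cell. -/

set_option autoImplicit false

namespace Pool.Agent.Helper3.KL

open Finset Filter Topology Matrix Pool.Agent.Helper69.RK Pool.Agent.Helper31.EC Pool.Agent.Helper31.EC.Sp
open Pool.Agent.Helper40.EL Pool.Agent.Helper89.LX Pool.Agent.Helper3.LF Pool.Agent.Helper84.MT
open Pool.Agent.Helper14.MC (gx vx vol_eq vx_UB)

noncomputable section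

variable {S T : Sp} {M D : ℕ} {E : ℕ → ℕ} {ι κ : Type}

/-- close points -/
def Cls (Q Q' : S.VV M) : Prop := ∃ K : ℕ → ℝ, S.Sub K ∧ ∀ᶠ k in UF, ∀ ω, (S.F k).μ ω ≠ 0 →
    ∀ i, |Q'.v k ω i - Q.v k ω i| ≤ K k * S.dl 1 k

theorem Cls.symm {Q Q' : S.VV M} (h : Cls Q Q') : Cls Q' Q := by
  obtain ⟨K, hK, h1⟩ := h
  refine ⟨K, hK, ?_⟩
  filter_upwards [h1] with k hk ω hω i
  rw [abs_sub_comm]
  exact hk ω hω i

theorem cp_gaq (Q Q' : S.VV M) (k : ℕ) : (gaq Q' D).cp k = (gaq Q D).cp k := by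
  have h1 : (gaq Q' D).C = (gaq Q D).C := rfl
  unfold Gau.cp
  rw [h1]

/-- the conditions on the forms do not depend on the point of the cell -/
theorem fm_near {Q Q' : S.VV M} (hQ : Cls Q Q') {x : ∀ k, FD (S.F k) (Mon M D)} (hx : (gaq Q D).Fm x) :
    (gaq Q' D).Fm x := by
  obtain ⟨K, hK, h1⟩ := hQ
  intro η hη
  have h2 : 0 < η / 2 := by linarith
  have hs : S.Sub (fun k => nn M D * (Cu D * Cm M D * (K k + 1) ^ D) ^ 2) := by
    have h0 : (0 : ℝ) ≤ nn M D := zero_le_one.trans (nn_one M D)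
    have h3 : (0 : ℝ) ≤ Cu D * Cm M D := mul_nonneg (zero_le_one.trans (Cu_one D)) (zero_le_one.trans (Cm_one M D))
    exact (S.Sub_const h0).mul (Sub_pow' ((S.Sub_const h3).mul
      (Sub_pow' (hK.add (S.Sub_const zero_le_one)) _)) _)
  filter_upwards [hx _ h2, h1, hs.eventually_le h2, hK.1] with k a b c hK0
  obtain ⟨a1, a2, a3⟩ := a
  have hn := (S.F k).pos
  have hpow : (2 : ℝ) ^ (η / 2 * (S.F k).n) * 2 ^ (η / 2 * (S.F k).n) = 2 ^ (η * (S.F k).n) := by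
    rw [← Real.rpow_add (by norm_num)]
    congr 1; ring
  have key : ∀ (G : (x k).l.T.Ω → Matrix (Mon M D) (Mon M D) ℝ),
      (∀ ω, (x k).l.T.μ ω ≠ 0 → Cpd ((gaq Q D).cp k) (G ω)) →
      (x k).l.T.pb (fun ω => ¬ (gaq Q D).φ k ((x k).l.p.π ω) (G ω) ≤ 2 ^ (η / 2 * (S.F k).n)) ≤ η / 2 →
      (x k).l.T.pb (fun ω => ¬ (gaq Q' D).φ k ((x k).l.p.π ω) (G ω) ≤ 2 ^ (η * (S.F k).n)) ≤ η := by
    intro G hG hp
    refine le_trans (FSp.pb_mono _ ?_) (hp.trans (by linarith))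
    intro ω hω h4 h5
    apply h4
    have hω' := (x k).l.p.supp ω hω
    have h6 : phi (S.dl 1 k) (G ω) (Q'.v k ((x k).l.p.π ω)) ≤
        nn M D * (Cu D * Cm M D * (K k + 1) ^ D) ^ 2 * phi (S.dl 1 k) (G ω) (Q.v k ((x k).l.p.π ω)) :=
      phi_comp (G ω) (hG ω hω).pdM (S.dl 1 k) (S.dl 1 k) (K k + 1) (S.dl_pos 1 k) (S.dl_pos 1 k).le (by linarith) _ _
        (fun i => by
          rw [add_mul, one_mul]
          exact add_le_add (b _ hω' i) le_rfl)
    have h7 : phi (S.dl 1 k) (G ω) (Q.v k ((x k).l.p.π ω)) ≤ 2 ^ (η / 2 * (S.F k).n) := h5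
    have h8 : 0 ≤ phi (S.dl 1 k) (G ω) (Q.v k ((x k).l.p.π ω)) :=
      phi_nonneg _ (fun y => (hG ω hω).pdM.nonneg y) _
    show phi (S.dl 1 k) (G ω) (Q'.v k ((x k).l.p.π ω)) ≤ _
    rw [← hpow]
    have h9 : nn M D * (Cu D * Cm M D * (K k + 1) ^ D) ^ 2 ≤ 2 ^ (η / 2 * (S.F k).n) := by linarith
    exact h6.trans (mul_le_mul h9 h7 h8 (by positivity))
  rw [cp_gaq Q Q' k]
  exact ⟨a1, key _ (fun ω hω => (a1 ω hω).1) a2, key _ (fun ω hω => (a1 ω hω).2) a3⟩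

theorem fm_vx_UB {Q : S.VV M} {x : ∀ k, FD (S.F k) (Mon M D)} (hx : (gaq Q D).Fm x) : UB (vx Q x) :=
  vx_UB ((Gau.Adf_iff (A := fun i : Empty => i.elim)).mpr ⟨fun i => i.elim, hx⟩)

/-- the volume does not depend on the point of the cell -/
theorem vol_near_le {Q Q' : S.VV M} (hQ : Cls Q Q') {x : ∀ k, FD (S.F k) (Mon M D)} (hx : (gaq Q D).Fm x) :
    vol Q D x ≤ vol Q' D x := by
  have hx' := fm_near hQ hx
  rw [vol_eq, vol_eq]
  have hU := fm_vx_UB hx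
  have hU' := fm_vx_UB hx'
  suffices h : ul (vx Q' x) ≤ ul (vx Q x) by linarith
  obtain ⟨K, hK, h1⟩ := hQ
  apply le_of_forall_pos_le_add
  intro η hη
  have hs : S.Sub (fun k => cQ M D ^ M * (K k + 1) ^ (2 * D * M)) := by
    have h0 : (0 : ℝ) ≤ cQ M D ^ M := pow_nonneg (zero_le_one.trans (cQ_one M D)) _
    exact (S.Sub_const h0).mul (Sub_pow' (hK.add (S.Sub_const zero_le_one)) _)
  have hle : ∀ᶠ k in UF, vx Q' x k ≤ vx Q x k + η := by
    filter_upwards [hx 1 one_pos, h1, hs.eventually_le hη, hK.1] with k a b c hK0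
    have hn := (S.F k).pos
    have h2 : vx Q x k + η = ∑ ω, (x k).l.T.μ ω * (gx Q k ((x k).l.p.π ω) ((x k).g ω) + η) := by
      have h3 : ∀ ω, (x k).l.T.μ ω * (gx Q k ((x k).l.p.π ω) ((x k).g ω) + η) =
          (x k).l.T.μ ω * gx Q k ((x k).l.p.π ω) ((x k).g ω) + (x k).l.T.μ ω * η := fun ω => by ring
      have hm : ∑ ω, (x k).l.T.μ ω = 1 := (x k).l.T.ms
      rw [Finset.sum_congr rfl (fun ω _ => h3 ω), Finset.sum_add_distrib, ← Finset.sum_mul, hm, one_mul]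
      rfl
    rw [h2]
    apply Finset.sum_le_sum
    intro ω _
    by_cases h0 : (x k).l.T.μ ω = 0
    · rw [h0, zero_mul, zero_mul]
    · apply mul_le_mul_of_nonneg_left _ ((x k).l.T.nn ω)
      have hω' := (x k).l.p.supp ω h0
      have c1 := (a.1 ω h0).1
      have h6 : GQ (S.dl 1 k) ((x k).g ω) (Q'.v k ((x k).l.p.π ω)) ≤
          cQ M D ^ M * (K k + 1) ^ (2 * D * M) * GQ (S.dl 1 k) ((x k).g ω) (Q.v k ((x k).l.p.π ω)) :=
        GQ_comp ((x k).g ω) c1.pdM (S.dl 1 k) (S.dl 1 k) (K k + 1) (S.dl_pos 1 k) (S.dl_pos 1 k).le (by linarith) _ _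
          (fun i => by
            rw [add_mul, one_mul]
            exact add_le_add (b _ hω' i) le_rfl)
      have h3 := one_le_GQ (S.dl 1 k) c1.1 c1.psd.2 (Q.v k ((x k).l.p.π ω))
      have h4 := one_le_GQ (S.dl 1 k) c1.1 c1.psd.2 (Q'.v k ((x k).l.p.π ω))
      have c' : cQ M D ^ M * (K k + 1) ^ (2 * D * M) ≤ 2 ^ (η * (S.F k).n) := by linarith
      have h7 : GQ (S.dl 1 k) ((x k).g ω) (Q'.v k ((x k).l.p.π ω)) ≤
          2 ^ (η * (S.F k).n) * GQ (S.dl 1 k) ((x k).g ω) (Q.v k ((x k).l.p.π ω)) :=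
        h6.trans (mul_le_mul_of_nonneg_right c' (by linarith))
      have h5 := Real.logb_le_logb_of_le (b := 2) (by norm_num) (by linarith) h7
      rw [Real.logb_mul (by positivity) (by linarith), Real.logb_rpow (by norm_num) (by norm_num)] at h5
      show Real.logb 2 (GQ (S.dl 1 k) ((x k).g ω) (Q'.v k ((x k).l.p.π ω))) / (2 * (S.F k).n) ≤
        Real.logb 2 (GQ (S.dl 1 k) ((x k).g ω) (Q.v k ((x k).l.p.π ω))) / (2 * (S.F k).n) + η
      have hn2 : 0 < 2 * (S.F k).n := by linarith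
      rw [div_add' _ _ _ hn2.ne', div_le_div_iff_of_pos_right hn2]
      have h8 := mul_pos hη hn
      have h9 : η * (2 * (S.F k).n) = 2 * (η * (S.F k).n) := by ring
      rw [h9]
      linarith
  exact le_of_tendsto_of_tendsto (ul_tendsto hU') ((ul_tendsto hU).add_const η) hle

theorem vol_near {Q Q' : S.VV M} (hQ : Cls Q Q') {x : ∀ k, FD (S.F k) (Mon M D)} (hx : (gaq Q D).Fm x) :
    vol Q' D x = vol Q D x := le_antisymm (vol_near_le hQ.symm (fm_near hQ hx)) (vol_near_le hQ hx)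

end

end Pool.Agent.Helper3.KL
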