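import Pool.Agent.Helper3.KL.Near
import Pool.Agent.Helper17.KL.Can

/-! K-LABELS: THE LIMIT OF THE COPIES. A bound for the volumes of all systems of copies over the point of a system gives a
form of the system with a label without any leak at the point (and no leak at the windows up to `o(n)`) with the same
bound of the volume. -/

set_option autoImplicit false

namespace Pool.Agent.Helper3.KL

open Finset Filter Topology Matrix Pool.Agent.Helper69.RK Pool.Agent.Helper31.EC Pool.Agent.Helper31.EC.Sp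
open Pool.Agent.Helper40.EL Pool.Agent.Helper89.LX Pool.Agent.Helper3.LF Pool.Agent.Helper84.MT
open Pool.Agent.Helper14.MC (gx vx vol_eq vx_UB)

noncomputable section

variable {S T : Sp} {M D : ℕ} {E : ℕ → ℕ} {ι κ : Type} {α : ℕ → Type} {C : ∀ k, (S.F k).Ω → α k}

/-! ### the form of the first copy, as a form of the second copy -/

theorem cls_q {Q : S.VV M} (hC : Dtm Q C) : Cls ((q1 C).vv Q) ((q2 C).vv Q) := Cls.symm (cpd_close hC)

/-- the form of the first copy, as a form of the second copy -/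
def snd (C : ∀ k, (S.F k).Ω → α k) (x : ∀ k, FD (S.F k) (Mon M D)) : ∀ k, FD (S.F k) (Mon M D) :=
  dnS (q2 C) (upS (q1 C) x)

theorem snd_zero (C : ∀ k, (S.F k).Ω → α k) (x : ∀ k, FD (S.F k) (Mon M D)) (k : ℕ) :
    (snd C x k).l.leak (kp C k) = 0 := dn_up_zero C (fun k => (x k).l) k

theorem snd_leak (C : ∀ k, (S.F k).Ω → α k) (x : ∀ k, FD (S.F k) (Mon M D)) (k : ℕ) (y : FL (S.F k)) :
    (snd C x k).l.leak y ≤ ((Lab.up' (q1 C) (fun k => (x k).l)) k).leak (((q2 C).fp k).map y) :=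
  FLab.down_leak ((q2 C).fp k) ((q2 C).hn k) ((Lab.up' (q1 C) (fun k => (x k).l)) k) y

theorem snd_fm {Q : S.VV M} (hC : Dtm Q C) {x : ∀ k, FD (S.F k) (Mon M D)} (hx : (gaq Q D).Fm x) :
    (gaq Q D).Fm (snd C x) := by
  have h1 := Gau.Fm.up hx (q1 C)
  rw [← gaq_pull] at h1
  have h2 := fm_near (cls_q hC) h1
  rw [gaq_pull] at h2
  exact Gau.Fm.dn h2

theorem snd_vol {Q : S.VV M} (hC : Dtm Q C) {x : ∀ k, FD (S.F k) (Mon M D)} (hx : (gaq Q D).Fm x) :
    vol Q D (snd C x) = vol Q D x := by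
  have h1 := Gau.Fm.up hx (q1 C)
  rw [← gaq_pull] at h1
  have h2 := vol_near (cls_q hC) h1
  rw [vol_up, vol_dn] at h2
  exact h2

/-! ### extensions by copies -/

/-- an extension of a system, the windows of the system are windows of the extension -/
structure CExt (s : MSys S M E ι) where
  T : Sp
  P : Pj T S
  κ : Type
  fin : Finite κ
  lf : κ → Leaf T (P.vv s.Q) E
  dn : ∀ (i : ι) (c : ℝ), ∃ j, (lf j).win c = ((s.lf i).win c).pull P

/-- the system -/
def CExt.sys {s : MSys S M E ι} (X : CExt s) : MSys X.T M E X.κ := ⟨X.P.vv s.Q, X.lf⟩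

/-- an extension with the same types -/
def CExt.pull [hf : Finite ι] (s : MSys S M E ι) (p : Pj T S) : CExt s where
  T := T
  P := p
  κ := ι
  fin := hf
  lf := (s.pull p).lf
  dn := fun i c => ⟨i, win_pull p (s.lf i) c⟩

theorem comp_pull {R T S : Sp} (q : Pj R T) (p : Pj T S) (A : Part S) : A.pull (q.comp p) = (A.pull p).pull q := by
  funext k
  exact FPj.comp_map (q.fp k) (p.fp k) (A k)

/-- two copies -/
def CExt.dbl {s : MSys S M E ι} (X : CExt s) (C : ∀ k, (S.F k).Ω → α k) (hC : Dtm s.Q C) : CExt s where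
  T := d2 (pb C X.P)
  P := (q1 (pb C X.P)).comp X.P
  κ := X.κ ⊕ X.κ
  fin := by
    have := X.fin
    infer_instance
  lf := (KL.dbl X.sys (pb C X.P) (dtm_pb hC X.P)).lf
  dn := by
    intro i c
    obtain ⟨j, hj⟩ := X.dn i c
    refine ⟨Sum.inl j, ?_⟩
    have h1 : ((KL.dbl X.sys (pb C X.P) (dtm_pb hC X.P)).lf (Sum.inl j)).win c =
      ((X.sys.lf j).win c).pull (q1 (pb C X.P)) := win_pull (q1 (pb C X.P)) (X.sys.lf j) c
    have h2 : (X.sys.lf j).win c = ((s.lf i).win c).pull X.P := hj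
    rw [h2] at h1
    rw [comp_pull]
    exact h1

theorem CExt.dbl_sys {s : MSys S M E ι} (X : CExt s) (hC : Dtm s.Q C) :
    (X.dbl C hC).sys = KL.dbl X.sys (pb C X.P) (dtm_pb hC X.P) := rfl

instance {s : MSys S M E ι} (X : CExt s) : Finite X.κ := X.fin

/-- the exponent of one label with form -/
def vz (Q : S.VV M) (k : ℕ) (z : FD (S.F k) (Mon M D)) : ℝ := ∑ ω, z.l.T.μ ω * gx Q k (z.l.p.π ω) (z.g ω)

theorem vx_vz (Q : S.VV M) (x : ∀ k, FD (S.F k) (Mon M D)) (k : ℕ) : vx Q x k = vz Q k (x k) := rfl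

/-- THE FORM OF THE LIMIT -/
theorem exists_form [Finite ι] (s : MSys S M E ι) (hC : Dtm s.Q C) (Pd : CExt s → Prop) (X₀ : CExt s) (h0 : Pd X₀)
    (h1 : ∀ X, Pd X → Pd (X.dbl C hC)) (B c : ℝ) (hB : ∀ X, Pd X → X.sys.vol D c ≤ B) :
    ∃ y : ∀ k, FD (S.F k) (Mon M D), (gaq s.Q D).AdfK (LC.kz (kp C)) (s.cnd c) y ∧ vol s.Q D y ≤ B := by
  set A : Set ℝ := {a | ∃ X : CExt s, Pd X ∧ ∃ l : Lab X.T, X.sys.IsKap c l ∧ a = l.info} with hA
  have hbd : BddBelow A := by
    refine ⟨0, ?_⟩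
    rintro a ⟨X, _, l, hl, rfl⟩
    exact Lab.info_nonneg' (hl.1.ub (i := none) (pcd_Bd X.sys.Q))
  have hne : A.Nonempty := by
    obtain ⟨l, hl⟩ := X₀.sys.exists_kap c
    exact ⟨_, X₀, h0, l, hl, rfl⟩
  have h2 : ∀ j : ℕ, ∃ z : ∀ k, FD (S.F k) (Mon M D), ∀ᶠ k in UF,
      (gaq s.Q D).Admf (s.cnd c) (1 / ((j : ℝ) + 1)) k (z k) ∧ (LC.kz (kp C)).P k (z k).l ∧
        M - B - 1 / ((j : ℝ) + 1) ≤ vz s.Q k (z k) := by
    intro j
    have hj : (0 : ℝ) < 1 / ((j : ℝ) + 1) := by positivity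
    obtain ⟨a, ⟨X, hX, l, hl, rfl⟩, ha⟩ := Real.lt_sInf_add_pos hne (half_pos hj)
    obtain ⟨x, hx⟩ := X.sys.exists_can D c
    obtain ⟨w, hw⟩ := (X.dbl C hC).sys.exists_kap c
    have hw1 : sInf A ≤ w.info := csInf_le hbd ⟨X.dbl C hC, h1 X hX, w, hw, rfl⟩
    have hCX : Dtm X.sys.Q (pb C X.P) := dtm_pb hC X.P
    have hw2 : (KL.dbl X.sys (pb C X.P) hCX).DMc c w := hw.1
    have hxi : Lab.info (fun k => (x k).l) = l.info := Pool.Agent.Helper49.MD.info_max_eq hx.2 hl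
    have hv : vol X.sys.Q D x ≤ B := by
      rw [X.sys.vol_eq hx.1]
      exact hB X hX
    set z0 := snd (pb C X.P) x with hz0
    have e1 : vol s.Q D (dnS X.P z0) ≤ B := by
      have h3 := vol_dn X.P s.Q z0
      have h4 : vol (X.P.vv s.Q) D z0 = vol X.sys.Q D x := snd_vol hCX hx.1.1.fm
      rw [← h3, h4]
      exact hv
    have e2 : (gaq s.Q D).Fm (dnS X.P z0) := by
      have h3 : (gaq (X.P.vv s.Q) D).Fm z0 := snd_fm hCX hx.1.1.fm
      rw [gaq_pull] at h3
      exact Gau.Fm.dn h3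
    have e3 : ∀ k, (dnS X.P z0 k).l.leak (kp C k) = 0 := by
      intro k
      apply le_antisymm _ (FLab.leak_nonneg _ _)
      have h3 := FLab.down_leak (X.P.fp k) (X.P.hn k) (z0 k).l (kp C k)
      have h4 : (X.P.fp k).map (kp C k) = kp (pb C X.P) k := rfl
      rw [h4, snd_zero (pb C X.P) x k] at h3
      exact h3
    have e4 : ∀ i, ∀ᶠ k in UF, (dnS X.P z0 k).l.leak (s.cnd c i k) ≤ 1 / ((j : ℝ) + 1) * (S.F k).n := by
      intro i
      rcases i with _ | i
      · have h3 : Nul X.T (fun k => (x k).l.leak (pcd X.sys.Q k)) := hx.2.1 none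
        have h5 := leak_pt hCX (fun k => (x k).l)
        filter_upwards [h3.eventually (gt_mem_nhds hj), h5] with k hk h5
        have h4 := FLab.down_leak (X.P.fp k) (X.P.hn k) (z0 k).l (pcd s.Q k)
        have h7 : (X.P.fp k).map (pcd s.Q k) = pcd X.sys.Q k := (congrFun (pcd_pull X.P s.Q) k).symm
        rw [h7] at h4
        have h6 := snd_leak (pb C X.P) x k (pcd X.sys.Q k)
        have hn : (X.T.F k).n = (S.F k).n := X.P.hn k
        have hp := (S.F k).pos
        rw [hn, div_lt_iff₀ hp] at hk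
        exact h4.trans (h6.trans (h5.trans hk.le))
      · obtain ⟨j', hj'⟩ := X.dn i c
        have h3 := leak_snd hx.2 hw2 j' (1 / ((j : ℝ) + 1) / 2) (half_pos hj)
        filter_upwards [h3] with k hk
        have h4 := FLab.down_leak (X.P.fp k) (X.P.hn k) (z0 k).l ((s.lf i).win c k)
        have h5 : (X.P.fp k).map ((s.lf i).win c k) = (X.sys.lf j').win c k := (congrFun hj' k).symm
        rw [h5] at h4
        have h6 := snd_leak (pb C X.P) x k ((X.sys.lf j').win c k)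
        have hn : (X.T.F k).n = (S.F k).n := X.P.hn k
        have hp := (S.F k).pos
        rw [hn] at hk
        have h7 : (Lab.info (fun k => (x k).l) - w.info + 1 / ((j : ℝ) + 1) / 2) * (S.F k).n ≤
            1 / ((j : ℝ) + 1) * (S.F k).n := by
          apply mul_le_mul_of_nonneg_right _ hp.le
          rw [hxi]
          linarith
        exact h4.trans (h6.trans (hk.trans h7))
    refine ⟨dnS X.P z0, ?_⟩
    have e5 : M - B - 1 / ((j : ℝ) + 1) < ul (vx s.Q (dnS X.P z0)) := by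
      rw [vol_eq] at e1
      linarith
    filter_upwards [e2 _ hj, Filter.eventually_all.mpr e4, eventually_gt_of_lt_ul (fm_vx_UB e2) e5] with k a b c'
    exact ⟨⟨b, a⟩, e3 k, c'.le⟩
  choose z hz using h2
  obtain ⟨y, J, hJ, hy, hP⟩ := (gaq s.Q D).diagfK (LC.kz (kp C)) (s.cnd c) z
    (fun j k z => M - B - 1 / ((j : ℝ) + 1) ≤ vz s.Q k z) hz
  refine ⟨y, hy, ?_⟩
  have h3 : Tendsto (fun k => M - B - 1 / ((J k : ℝ) + 1)) UF (𝓝 (M - B - 0)) :=
    (tendsto_one_div_add_atTop_nhds_zero_nat.comp hJ).const_sub (M - B)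
  have h4 : M - B - 0 ≤ ul (vx s.Q y) := le_of_tendsto_of_tendsto h3 (ul_tendsto (fm_vx_UB hy.1.fm)) hP
  rw [vol_eq]
  linarith

/-- the K-optimal form has the least volume -/
theorem vol_optK_le {A : κ → Part S} {L : LC S} {Q : S.VV M} {x y : ∀ k, FD (S.F k) (Mon M D)}
    (hx : (gaq Q D).OptfK L A x) (hy : (gaq Q D).AdfK L A y) : vol Q D x ≤ vol Q D y :=
  Pool.Agent.Helper49.MD.vol_le_of_dom hx.1.1.fm hy.1.fm fun e he => Gau.OptfK.dom (gaq Q D) hx hy e he

theorem vol_optK_eq {A : κ → Part S} {L : LC S} {Q : S.VV M} {x y : ∀ k, FD (S.F k) (Mon M D)}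
    (hx : (gaq Q D).OptfK L A x) (hy : (gaq Q D).OptfK L A y) : vol Q D x = vol Q D y :=
  le_antisymm (vol_optK_le hx hy.1) (vol_optK_le hy hx.1)

end

end Pool.Agent.Helper3.KL
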