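import Pool.Agent.Helper81.CPY.Cpy
import Pool.Agent.Helper49.MD.Cvl
import Pool.Agent.Helper36.AM.St

/-! K-LABELS (ST for K-labels): TWO COPIES OF A SYSTEM OVER A LITERAL VARIABLE `C` (the deep point) which determines the
finest cell of the point. A label of the first copy is a label of the second copy without any leak at `C`; its leak at
the windows of the second copy is at most the loss of information of the maximal label of the doubled system. -/

set_option autoImplicit false

namespace Pool.Agent.Helper3.KL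

open Finset Filter Topology Matrix Pool.Agent.Helper69.RK Pool.Agent.Helper31.EC Pool.Agent.Helper31.EC.Sp
open Pool.Agent.Helper40.EL Pool.Agent.Helper89.LX Pool.Agent.Helper3.LF Pool.Agent.Helper84.MT

noncomputable section

variable {S T : Sp} {M D : ℕ} {E : ℕ → ℕ} {ι κ : Type} {α : ℕ → Type}

/-! ### finite level -/

/-- a label pulled back along `p`, seen from a space `F'` which is independent of `F` given `c` -/
theorem down_up_leak {F G F' : FSp} (p : FPj G F) (hn : G.n = F.n) (q : FPj G F') (hn' : G.n = F'.n) (u : FLab F)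
    (c : FL F) (c' : FL F') (hc : q.map c' = p.map c) (hi : I p.top q.top (p.map c) = 0) :
    (FLab.down q hn' (u.up' p hn)).leak c' = 0 := by
  have h0 : (FLab.down q hn' (u.up' p hn)).leak c' =
      I ((u.amx p).p1.map u.v) ((u.amx p).p2.map q.top) ((u.amx p).p2.map (q.map c')) := by
    unfold FLab.leak
    have h1 : (FLab.down q hn' (u.up' p hn)).p.map c' = (u.up' p hn).p.map (q.map c') := FPj.comp_map _ _ _
    rw [h1]
    rfl
  have h1 : I ((u.amx p).p1.map u.v) ((u.amx p).p2.map q.top) ((u.amx p).p2.map p.top) = 0 := by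
    have h2 := (u.amx p).indep u.v q.top
    have h3 : (u.amx p).p1.map (fc (Setoid.ker (u.amx p).f)) = (u.amx p).p2.map (fc (Setoid.ker (u.amx p).g)) :=
      (u.amx p).common
    rw [h3] at h2
    exact h2
  rw [h0, hc]
  apply le_antisymm _ (I_nonneg _ _ _)
  have h2 : I ((u.amx p).p1.map u.v) ((u.amx p).p2.map q.top) ((u.amx p).p2.map (p.map c)) ≤
      I ((u.amx p).p2.map p.top ⊔ (u.amx p).p1.map u.v) ((u.amx p).p2.map q.top) ((u.amx p).p2.map (p.map c)) :=
    I_mono_left (le_sup_right.trans le_sup_left)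
  rw [I_chain, (u.amx p).p2.I_map, hi] at h2
  have h3 : (u.amx p).p2.map p.top ⊔ (u.amx p).p2.map (p.map c) = (u.amx p).p2.map p.top :=
    sup_eq_left.mpr ((u.amx p).p2.map_mono (p.map_le_top c))
  rw [h3, h1] at h2
  linarith

/-- the leak of a label, through another label -/
theorem leak_le_join {F : FSp} (w u : FLab F) (y : FL F) :
    u.leak y ≤ w.leak y + ((w.join u).info - w.info) := by
  have h1 : u.leak y = I ((w.am u).p2.map u.v) ((w.am u).p1.map w.p.top) ((w.am u).p1.map (w.p.map y)) := by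
    unfold FLab.leak
    rw [FLab.am_top, FLab.am_map]
    exact ((w.am u).p2.I_map _ _ _).symm
  have h2 : w.leak y = I ((w.am u).p1.map w.v) ((w.am u).p1.map w.p.top) ((w.am u).p1.map (w.p.map y)) := by
    unfold FLab.leak
    exact ((w.am u).p1.I_map _ _ _).symm
  have h3 : I ((w.am u).p2.map u.v) ((w.am u).p1.map w.p.top) ((w.am u).p1.map (w.p.map y)) ≤
      I ((w.am u).p1.map w.v ⊔ (w.am u).p2.map u.v) ((w.am u).p1.map w.p.top) ((w.am u).p1.map (w.p.map y)) :=
    I_mono_left (le_sup_right.trans le_sup_left)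
  rw [I_chain] at h3
  have h4 : I ((w.am u).p2.map u.v) ((w.am u).p1.map w.p.top)
      ((w.am u).p1.map w.v ⊔ (w.am u).p1.map (w.p.map y)) ≤
      I ((w.am u).p2.map u.v) ((w.am u).p1.map w.p.top) ((w.am u).p1.map w.v) := by
    rw [I_comm, I_comm ((w.am u).p2.map u.v), sup_comm]
    exact I_cond_le ((w.am u).p1.map_mono (w.p.map_le_top y))
  rw [FLab.join_info, h1, h2]
  linarith

/-! ### the doubled space and the doubled system -/

/-- the partition of a literal variable -/
def kp (C : ∀ k, (S.F k).Ω → α k) : Part S := fun k => fc (Setoid.ker (C k))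

/-- the literal variable on an extension -/
def pb (C : ∀ k, (S.F k).Ω → α k) (p : Pj T S) : ∀ k, (T.F k).Ω → α k := fun k ω => C k (p.π k ω)

theorem kp_pb (C : ∀ k, (S.F k).Ω → α k) (p : Pj T S) : kp (pb C p) = (kp C).pull p := rfl

theorem dtm_pb {Q : S.VV M} {C : ∀ k, (S.F k).Ω → α k} (hC : Dtm Q C) (p : Pj T S) : Dtm (p.vv Q) (pb C p) := by
  filter_upwards [hC] with k hk ω ω' h h' hZ e
  rw [vv_cellv]
  exact hk _ _ (p.supp k ω h) (p.supp k ω' h') ((p.hZ k ω ω' h h').1 hZ) e

/-- the finest cell of the point -/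
def cel (Q : S.VV M) : ∀ k, (S.F k).Ω → Fin M → ℤ := fun k ω => Q.cellv 1 k ω

theorem cel_dtm (Q : S.VV M) : Dtm Q (cel Q) := Dtm_cell Q

theorem kp_cel (Q : S.VV M) : kp (cel Q) = pcd Q := rfl

/-- the doubled space -/
def d2 (C : ∀ k, (S.F k).Ω → α k) : Sp := (cpd C).sp

def q1 (C : ∀ k, (S.F k).Ω → α k) : Pj (d2 C) S := (cpd C).p1

def q2 (C : ∀ k, (S.F k).Ω → α k) : Pj (d2 C) S := (cpd C).p2

/-- the doubled system -/
def dbl (s : MSys S M E ι) (C : ∀ k, (S.F k).Ω → α k) (hC : Dtm s.Q C) : MSys (d2 C) M E (ι ⊕ ι) := s.cpy C hC s.lf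

theorem kp_eq (C : ∀ k, (S.F k).Ω → α k) (k : ℕ) : ((kp C).pull (q1 C)) k = ((kp C).pull (q2 C)) k :=
  cpd_common C k _ fun _ _ _ _ _ d => d

/-- a label of the first copy has no leak at `C` for the second copy -/
theorem dn_up_zero (C : ∀ k, (S.F k).Ω → α k) (u : Lab S) (k : ℕ) :
    (((u.up' (q1 C)).down (q2 C)) k).leak (kp C k) = 0 :=
  down_up_leak ((q1 C).fp k) ((q1 C).hn k) ((q2 C).fp k) ((q2 C).hn k) (u k) (kp C k) (kp C k) (kp_eq C k).symm
    (cpd_indep_top C k)

variable {C : ∀ k, (S.F k).Ω → α k}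

theorem dbl_pull {s : MSys S M E ι} {hC : Dtm s.Q C} {c : ℝ} {w : Lab (d2 C)} (h : (dbl s C hC).DMc c w) :
    (s.pull (q1 C)).DMc c w := (MSys.DMc_add_iff.1 h).1

theorem dbl_snd {s : MSys S M E ι} {hC : Dtm s.Q C} {c : ℝ} {w : Lab (d2 C)} (h : (dbl s C hC).DMc c w) (i : ι) :
    Nul (d2 C) (fun k => (w k).leak ((((s.lf i).win c).pull (q2 C)) k)) := by
  have h1 := (MSys.DMc_add_iff.1 h).2 i
  have e := (s.lf i).cpy_win C hC c
  exact (congrArg (fun B : Part (d2 C) => Nul (d2 C) (fun k => (w k).leak (B k))) e).mp h1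

/-- THE LEAK AT THE WINDOWS OF THE SECOND COPY is at most the loss of information -/
theorem leak_snd {s : MSys S M E ι} {hC : Dtm s.Q C} {c : ℝ} {u : Lab S} (hu : s.IsKap c u) {w : Lab (d2 C)}
    (hw : (dbl s C hC).DMc c w) (i : ι) (η : ℝ) (hη : 0 < η) : ∀ᶠ k in UF,
      ((u.up' (q1 C)) k).leak ((((s.lf i).win c).pull (q2 C)) k) ≤ (u.info - w.info + η) * (S.F k).n := by
  have h1 := dbl_pull hw
  have h2 := MSys.DMc.up' (q1 C) hu.1
  have h3 : (s.pull (q1 C)).DMc c (w.join (u.up' (q1 C))) := Lab.DMf.join h1 h2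
  have h4 : (w.join (u.up' (q1 C))).info ≤ u.info := by
    rw [← MSys.DMc.info_pull h3]
    exact hu.2 _ (MSys.DMc.down _ h3)
  have hB : (((s.pull (q1 C)).cnd c) none).Bd := pcd_Bd _
  have b1 := Lab.DMf.ub h1 (i := none) hB
  have b3 := Lab.DMf.ub h3 (i := none) hB
  have t1 := ul_tendsto b1
  have t3 := ul_tendsto b3
  have t0 : Tendsto (fun k => (w k).leak ((((s.lf i).win c).pull (q2 C)) k) / ((d2 C).F k).n) UF (𝓝 0) :=
    dbl_snd hw i
  have t4 := t0.add (t3.sub t1)
  have h5 : 0 + ((w.join (u.up' (q1 C))).info - w.info) < u.info - w.info + η := by linarith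
  have t5 : Tendsto (fun k => (w k).leak ((((s.lf i).win c).pull (q2 C)) k) / ((d2 C).F k).n +
      (((w.join (u.up' (q1 C))) k).info / ((d2 C).F k).n - (w k).info / ((d2 C).F k).n)) UF
      (𝓝 (0 + ((w.join (u.up' (q1 C))).info - w.info))) := t4
  filter_upwards [t5.eventually (gt_mem_nhds h5)] with k hk
  have h6 := leak_le_join (w k) ((u.up' (q1 C)) k) ((((s.lf i).win c).pull (q2 C)) k)
  have hn : ((d2 C).F k).n = (S.F k).n := (q1 C).hn k
  have hp := (S.F k).pos
  rw [hn, ← sub_div, ← add_div, div_lt_iff₀ hp] at hk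
  exact h6.trans hk.le

/-- the leak at the point stays the leak of the first copy -/
theorem leak_pt {Q : S.VV M} (hC : Dtm Q C) (u : Lab S) : ∀ᶠ k in UF,
    ((u.up' (q1 C)) k).leak (((pcd Q).pull (q2 C)) k) ≤ (u k).leak (pcd Q k) := by
  filter_upwards [pcd_cpd hC] with k hk
  have h1 : ((pcd Q).pull (q2 C)) k = ((pcd Q).pull (q1 C)) k := hk.symm
  rw [h1]
  exact (u k).up'_leak ((q1 C).fp k) ((q1 C).hn k) (pcd Q k)

end

end Pool.Agent.Helper3.KL
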