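import Pool.Agent.Helper3.KL.Ker
import Pool.Agent.Helper3.KL.Cor

/-! K-LABELS: the least volume of the K-forms of a system is the supremum of the volumes of its extensions by copies, in
every degree. If the volumes of all systems do not depend on the degree, neither do the least volumes of K-forms. -/

set_option autoImplicit false

namespace Pool.Agent.Helper3.KL

open Finset Filter Topology Matrix Pool.Agent.Helper69.RK Pool.Agent.Helper31.EC Pool.Agent.Helper31.EC.Sp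
open Pool.Agent.Helper40.EL Pool.Agent.Helper89.LX Pool.Agent.Helper3.LF Pool.Agent.Helper84.MT
open Pool.Agent.Helper52.SL (cv cv_dg)
open Pool.Agent.Helper36.AM (STu)

noncomputable section

variable {S T : Sp} {M D : ℕ} {E : ℕ → ℕ} {ι κ : Type} {α : ℕ → Type} {C : ∀ k, (S.F k).Ω → α k}

/-- K-forms of the system are K-forms of the extension -/
def CExt.Trf {s : MSys S M E ι} (C : ∀ k, (S.F k).Ω → α k) (X : CExt s) : Prop :=
  ∀ (D : ℕ) (x : ∀ k, FD (S.F k) (Mon M D)), (gaq s.Q D).Fm x → (LC.kz (kp C)).ev (fun k => (x k).l) →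
    ∃ y : ∀ k, FD (X.T.F k) (Mon M D), (gaq X.sys.Q D).Fm y ∧ (LC.kz (kp (pb C X.P))).ev (fun k => (y k).l) ∧
      (∀ j c, ∃ i, ∀ᶠ k in UF, (y k).l.leak ((X.sys.lf j).win c k) ≤ (x k).l.leak ((s.lf i).win c k)) ∧
      (∀ᶠ k in UF, (y k).l.leak (pcd X.sys.Q k) ≤ (x k).l.leak (pcd s.Q k)) ∧ vol X.sys.Q D y = vol s.Q D x

theorem upS_leak (p : Pj T S) (x : ∀ k, FD (S.F k) (Mon M D)) (k : ℕ) (y : FL (S.F k)) :
    (upS p x k).l.leak ((p.fp k).map y) ≤ (x k).l.leak y := FLab.up'_leak (x k).l (p.fp k) (p.hn k) y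

theorem trf_pull [Finite ι] (s : MSys S M E ι) (p : Pj T S) (C : ∀ k, (S.F k).Ω → α k) :
    (CExt.pull s p).Trf C := by
  intro D x hx hK
  have h1 := Gau.Fm.up hx p
  rw [← gaq_pull] at h1
  refine ⟨upS p x, h1, ?_, fun j c => ⟨j, Eventually.of_forall fun k => ?_⟩, Eventually.of_forall fun k => ?_,
    vol_up p s.Q x⟩
  · filter_upwards [hK] with k hk
    apply le_antisymm _ (FLab.leak_nonneg _ _)
    exact (upS_leak p x k (kp C k)).trans_eq hk
  · have e : ((CExt.pull s p).sys.lf j).win c = ((s.lf j).win c).pull p := win_pull p (s.lf j) c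
    rw [e]
    exact upS_leak p x k _
  · have e : pcd (CExt.pull s p).sys.Q = (pcd s.Q).pull p := pcd_pull p s.Q
    rw [e]
    exact upS_leak p x k _

theorem trf_dbl {s : MSys S M E ι} (hC : Dtm s.Q C) {X : CExt s} (hX : X.Trf C) : (X.dbl C hC).Trf C := by
  intro D x hx hK
  obtain ⟨y, h1, h2, h3, h4, h5⟩ := hX D x hx hK
  have hCX : Dtm X.sys.Q (pb C X.P) := dtm_pb hC X.P
  have f1 := Gau.Fm.up h1 (q1 (pb C X.P))
  rw [← gaq_pull] at f1
  refine ⟨upS (q1 (pb C X.P)) y, f1, ?_, fun j c => ?_, ?_, ?_⟩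
  · filter_upwards [h2] with k hk
    apply le_antisymm _ (FLab.leak_nonneg _ _)
    exact (upS_leak (q1 (pb C X.P)) y k (kp (pb C X.P) k)).trans_eq hk
  · rcases j with j | j
    · obtain ⟨i, hi⟩ := h3 j c
      refine ⟨i, ?_⟩
      filter_upwards [hi] with k hk
      have e : ((X.dbl C hC).sys.lf (Sum.inl j)).win c = ((X.sys.lf j).win c).pull (q1 (pb C X.P)) :=
        win_pull (q1 (pb C X.P)) (X.sys.lf j) c
      rw [e]
      exact (upS_leak (q1 (pb C X.P)) y k _).trans hk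
    · obtain ⟨i, hi⟩ := h3 j c
      refine ⟨i, ?_⟩
      filter_upwards [hi, h2] with k hk hk2
      have e : ((X.dbl C hC).sys.lf (Sum.inr j)).win c = ((X.sys.lf j).win c).pull (q2 (pb C X.P)) :=
        (X.sys.lf j).cpy_win (pb C X.P) hCX c
      rw [e]
      exact (up_snd (pb C X.P) k (y k).l hk2 _).trans hk
  · filter_upwards [h4] with k hk
    have e : pcd (X.dbl C hC).sys.Q = (pcd X.sys.Q).pull (q1 (pb C X.P)) := pcd_pull (q1 (pb C X.P)) X.sys.Q
    rw [e]
    exact (upS_leak (q1 (pb C X.P)) y k _).trans hk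
  · have e := vol_up (D := D) (q1 (pb C X.P)) X.sys.Q y
    exact e.trans h5

/-- a K-form of the system bounds the volumes of the extensions -/
theorem vol_le_of_trf {s : MSys S M E ι} {X : CExt s} (hX : X.Trf C) {c : ℝ} {x : ∀ k, FD (S.F k) (Mon M D)}
    (hx : (gaq s.Q D).Fm x) (hK : (LC.kz (kp C)).ev (fun k => (x k).l))
    (hw : ∀ i, Nul S (fun k => (x k).l.leak (s.cnd c i k))) : X.sys.vol D c ≤ vol s.Q D x := by
  obtain ⟨y, h1, _, h3, h4, h5⟩ := hX D x hx hK
  rw [← h5]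
  apply X.sys.vol_le_of
  refine Gau.Adf_iff.2 ⟨fun j => ?_, h1⟩
  rw [Lab.nul_pj X.P]
  rcases j with _ | j
  · exact (hw none).of_le (Eventually.of_forall fun k => FLab.leak_nonneg _ _) h4
  · obtain ⟨i, hi⟩ := h3 j c
    exact (hw (some i)).of_le (Eventually.of_forall fun k => FLab.leak_nonneg _ _) hi

/-- extensions by copies -/
inductive IsCpy {s : MSys S M E ι} (hC : Dtm s.Q C) : CExt s → Prop
  | base (X : CExt s) (h : ∃ (_ : Finite ι), X = CExt.pull s (Pj.id S)) : IsCpy hC X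
  | dbl (X : CExt s) (h : IsCpy hC X) : IsCpy hC (X.dbl C hC)

theorem IsCpy.trf {s : MSys S M E ι} {hC : Dtm s.Q C} {X : CExt s} (h : IsCpy hC X) : X.Trf C := by
  induction h with
  | base X h =>
    obtain ⟨hf, rfl⟩ := h
    exact trf_pull s (Pj.id S) C
  | dbl X _ ih => exact trf_dbl hC ih

/-- THE LEAST VOLUME OF K-FORMS IS THE SUPREMUM OF THE VOLUMES OF THE COPIES -/
theorem vol_optK_iff [Finite ι] (s : MSys S M E ι) (hC : Dtm s.Q C) {c : ℝ} {x : ∀ k, FD (S.F k) (Mon M D)}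
    (hx : (gaq s.Q D).OptfK (LC.kz (kp C)) (s.cnd c) x) (B : ℝ) :
    vol s.Q D x ≤ B ↔ ∀ X, IsCpy hC X → X.sys.vol D c ≤ B := by
  constructor
  · intro h X hX
    exact (vol_le_of_trf hX.trf hx.1.1.fm hx.1.2 (Gau.AdfK.dm _ hx.1)).trans h
  · intro h
    obtain ⟨y, hy, hv⟩ := exists_form s hC (IsCpy hC) (CExt.pull s (Pj.id S)) (IsCpy.base _ ⟨inferInstance, rfl⟩)
      (fun X hX => IsCpy.dbl X hX) B c h
    exact (vol_optK_le hx hy).trans hv

/-! ### forms over their own label -/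

/-- the label of a form -/
def lx (x : ∀ k, FD (S.F k) (Mon M D)) : Lab S := fun k => (x k).l

/-- a form as a form over its own label, with the trivial label -/
def own (x : ∀ k, FD (S.F k) (Mon M D)) : ∀ k, FD (((lx x).ovr 1 one_pos).F k) (Mon M D) := fun k => {
  l := FLab.triv (((lx x).ovr 1 one_pos).F k)
  g := (x k).g
  g' := (x k).g'
  meas := fun ω ω' h h' _ hZ => (x k).meas ω ω' h h' hZ.1 hZ.2 }

theorem own_leak (x : ∀ k, FD (S.F k) (Mon M D)) (k : ℕ) (y : FL (((lx x).ovr 1 one_pos).F k)) :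
    (own x k).l.leak y = 0 := FLab.triv_leak y

theorem own_fm {Q : S.VV M} {x : ∀ k, FD (S.F k) (Mon M D)} (hx : (gaq Q D).Fm x) :
    (gaq (cv (lx x) Q) D).Fm (own x) := by
  intro η hη
  filter_upwards [hx η hη] with k hk
  obtain ⟨a1, a2, a3⟩ := hk
  have hφ : ∀ (ω : (x k).l.T.Ω) (A : Matrix (Mon M D) (Mon M D) ℝ),
      (gaq (cv (lx x) Q) D).φ k ω A = (gaq Q D).φ k ((x k).l.p.π ω) A := fun ω A => phi_cv (lx x) Q k ω A
  rw [cp_cv, ovr_n1]
  refine ⟨a1, ?_, ?_⟩
  · refine le_trans (le_of_eq ?_) a2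
    show (x k).l.T.pb (fun ω => ¬ (gaq (cv (lx x) Q) D).φ k ω ((x k).g ω) ≤ _) = (x k).l.T.pb _
    congr 1
    funext ω
    rw [hφ]
  · refine le_trans (le_of_eq ?_) a3
    show (x k).l.T.pb (fun ω => ¬ (gaq (cv (lx x) Q) D).φ k ω ((x k).g' ω) ≤ _) = (x k).l.T.pb _
    congr 1
    funext ω
    rw [hφ]

theorem own_vol (Q : S.VV M) (x : ∀ k, FD (S.F k) (Mon M D)) : vol (cv (lx x) Q) D (own x) = vol Q D x := by
  have h1 : Pool.Agent.Helper14.MC.vx (cv (lx x) Q) (own x) = Pool.Agent.Helper14.MC.vx Q x := by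
    funext k
    apply Finset.sum_congr rfl
    intro ω _
    have e1 : Pool.Agent.Helper14.MC.gx (cv (lx x) Q) k ω ((x k).g ω) =
        Real.logb 2 (GQ (((lx x).ovr 1 one_pos).dl 1 k) ((x k).g ω)
          ((cv (lx x) Q).v k ω)) / (2 * (((lx x).ovr 1 one_pos).F k).n) := rfl
    rw [ovr_dl, ovr_n1] at e1
    exact congrArg (fun z => (x k).l.T.μ ω * z) e1
  rw [Pool.Agent.Helper14.MC.vol_eq, Pool.Agent.Helper14.MC.vol_eq, h1]

/-- THE DEGREE DOES NOT MATTER FOR K-FORMS (window `0`): if it does not matter for the volumes of systems -/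
theorem dgr_form {D' : ℕ} [Finite ι] (s : MSys S M E ι)
    (hdg : ∀ (κ : Type) [Finite κ] (T : Sp) (t : MSys T M E κ), t.vol D 0 ≤ t.vol D' 0) (hC : Dtm s.Q C)
    {x : ∀ k, FD (S.F k) (Mon M D')} (hx : (gaq s.Q D').Fm x) (hK : (LC.kz (kp C)).ev (fun k => (x k).l))
    (hw : ∀ i, Nul S (fun k => (x k).l.leak ((s.lf i).win 0 k))) :
    ∃ y : ∀ k, FD (S.F k) (Mon M D), (LC.kz (kp C)).ev (fun k => (y k).l) ∧
      (∀ i, Nul S (fun k => (y k).l.leak ((s.lf i).win 0 k))) ∧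
      (Nul S (fun k => (x k).l.leak (pcd s.Q k)) → Nul S (fun k => (y k).l.leak (pcd s.Q k))) ∧ (gaq s.Q D).Fm y ∧
      vol s.Q D y ≤ vol s.Q D' x := by
  set l : Lab S := lx x with hl
  have hC' := rc_dtm l hC
  obtain ⟨y, hy, hv⟩ := exists_form (rel s l hw) (C := rc l C) hC' (IsCpy hC') (CExt.pull (rel s l hw) (Pj.id _))
    (IsCpy.base _ ⟨inferInstance, rfl⟩) (fun X hX => IsCpy.dbl X hX) (vol s.Q D' x) 0 (fun X hX => by
      refine (hdg X.κ X.T X.sys).trans ?_
      rw [← own_vol s.Q x]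
      refine vol_le_of_trf hX.trf (own_fm hx) ?_ ?_
      · exact Eventually.of_forall fun k => own_leak x k _
      · intro i
        have e : (fun k => (own x k).l.leak ((rel s l hw).cnd 0 i k)) = fun _ => 0 := by
          funext k
          exact own_leak x k _
        rw [e]
        exact Nul_zero _)
  have h2 : ∀ i, Nul S (fun k => (y k).l.leak ((l k).up 1 one_pos (s.cnd 0 i k))) := by
    intro i
    have h1 : Nul (l.ovr 1 one_pos) (fun k => (y k).l.leak ((rel s l hw).cnd 0 i k)) := Gau.Adf.dm _ hy.1 i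
    have h2 : (fun k => (y k).l.leak ((rel s l hw).cnd 0 i k)) =
        fun k => (y k).l.leak ((l k).up 1 one_pos (s.cnd 0 i k)) := by
      funext k
      exact congrArg (fun z => (y k).l.leak z) (rel_cnd s l hw 0 i k)
    rw [h2] at h1
    exact (l.nul_over 1 one_pos).mp h1
  have key : ∀ i, Nul S (fun k => (l k).leak (s.cnd 0 i k)) → Nul S (fun k => (cm l y k).l.leak (s.cnd 0 i k)) := by
    intro i hi
    apply (hi.add (h2 i)).of_le (Eventually.of_forall fun k => FLab.leak_nonneg _ _)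
    exact Eventually.of_forall fun k => cm_leak l y k _
  refine ⟨cm l y, ?_, fun i => key (some i) (hw i), key none, cm_fm hy.1.fm, ?_⟩
  · filter_upwards [hy.2, hK] with k a b
    apply le_antisymm _ (FLab.leak_nonneg _ _)
    have h5 := cm_leak l y k (kp C k)
    have a' : (y k).l.leak ((l k).up 1 one_pos (kp C k)) = 0 := a
    have b' : (l k).leak (kp C k) = 0 := b
    rw [a', b', add_zero] at h5
    exact h5
  · rw [cm_vol]
    exact hv

/-- the same for K-optimal forms, any family of conditions as in `stk_fam` -/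
theorem dgr_fam {D' : ℕ} [Finite ι] [Finite κ] (s : MSys S M E ι)
    (hdg : ∀ (κ : Type) [Finite κ] (T : Sp) (t : MSys T M E κ), t.vol D 0 ≤ t.vol D' 0) (hC : Dtm s.Q C)
    {A : κ → Part S} (hA : ∀ j, (∃ i, PLe ((s.lf i).win 0) (A j)) ∨ ∀ᶠ k in UF, kp C k ≤ A j k)
    {x' : ∀ k, FD (S.F k) (Mon M D')} (hx : (gaq s.Q D').Fm x') (hK : (LC.kz (kp C)).ev (fun k => (x' k).l))
    (hw : ∀ i, Nul S (fun k => (x' k).l.leak ((s.lf i).win 0 k)))
    {x : ∀ k, FD (S.F k) (Mon M D)} (hx' : (gaq s.Q D).OptfK (LC.kz (kp C)) A x) :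
    vol s.Q D x ≤ vol s.Q D' x' := by
  obtain ⟨y, h1, h2, _, h4, h5⟩ := dgr_form s hdg hC hx hK hw
  refine (vol_optK_le hx' ⟨Gau.Adf_iff.2 ⟨fun j => ?_, h4⟩, h1⟩).trans h5
  rcases hA j with ⟨i, hi⟩ | hj
  · apply ((h2 i).add hi).of_le (Eventually.of_forall fun k => FLab.leak_nonneg _ _)
    exact Eventually.of_forall fun k => FLab.leak_le_leak _ _ _
  · apply (Nul_zero S).of_le (Eventually.of_forall fun k => FLab.leak_nonneg _ _)
    filter_upwards [hj, h1] with k a b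
    exact (FLab.leak_anti _ a).trans_eq b

end

end Pool.Agent.Helper3.KL
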