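import Pool.Agent.Helper3.KL.Form
import Pool.Agent.Helper38.NSL.Sel

/-! K-LABELS: A LABEL WITHOUT ANY LEAK AT `C` HAS THE SAME LEAKS AT THE TWO COPIES over `C`. The leaks of a label depend
only on the joint law of the point of the space and the value; a label without any leak at `C` is a kernel of `C`. -/

set_option autoImplicit false

namespace Pool.Agent.Helper3.KL

open Finset Filter Topology Matrix Pool.Agent.Helper69.RK Pool.Agent.Helper31.EC Pool.Agent.Helper31.EC.Sp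
open Pool.Agent.Helper40.EL Pool.Agent.Helper89.LX Pool.Agent.Helper3.LF Pool.Agent.Helper84.MT
open Pool.Agent.Helper33.LIT (mk kr kr_fib kr_push cg)
open Pool.Agent.Helper38.NSL (qk qk_congr kr_of_leak)

noncomputable section

/-! ### leaks and joint laws -/

theorem h_cond_of {F : FSp} (l : FLab F) {β : Type} (f : l.T.Ω → β) (hf : ∀ τ τ', l.V τ τ' ↔ f τ = f τ')
    (A : Setoid F.Ω) : h l.v (l.p.map (fc A)) = CH l.T.μ f (fun τ => cg A (l.p.π τ)) := by
  have h1 : h l.v (l.p.map (fc A)) = l.T.e l.V (Setoid.comap l.p.π A ⊓ l.T.Z) := h_fc _ _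
  rw [h1]
  apply l.T.e_congr
  · intro ω ω' _ _
    exact hf ω' ω
  · intro ω ω' h1 h2
    unfold cg
    rw [Quotient.eq (r := A ⊓ F.Z)]
    exact and_congr Iff.rfl (l.p.hZ ω' ω h2 h1)

theorem h_top_of {F : FSp} (l : FLab F) {β : Type} (f : l.T.Ω → β) (hf : ∀ τ τ', l.V τ τ' ↔ f τ = f τ') :
    h l.v l.p.top = CH l.T.μ f l.p.π := by
  have h1 : h l.v l.p.top = l.T.e l.V (Setoid.ker l.p.π ⊓ l.T.Z) := h_fc _ _
  rw [h1]
  apply l.T.e_congr
  · intro ω ω' _ _
    exact hf ω' ω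
  · intro ω ω' h1 h2
    constructor
    · intro h3
      exact h3.1
    · intro h3
      refine ⟨h3, ?_⟩
      rw [l.p.hZ ω' ω h2 h1, h3]

/-- leaks depend only on the joint law -/
theorem leak_law {F : FSp} (l l' : FLab F) {β : Type} [Fintype β] (f : l.T.Ω → β) (f' : l'.T.Ω → β)
    (hf : ∀ τ τ', l.V τ τ' ↔ f τ = f τ') (hf' : ∀ τ τ', l'.V τ τ' ↔ f' τ = f' τ')
    (hJ : push (fun τ => (f τ, l.p.π τ)) l.T.μ = push (fun τ => (f' τ, l'.p.π τ)) l'.T.μ) (x : FL F) :
    l.leak x = l'.leak x := by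
  induction x using fc_ind with | _ A
  have e1 : l.leak (fc A) = h l.v (l.p.map (fc A)) - h l.v l.p.top := by
    unfold FLab.leak
    rw [I_eq, sup_eq_left.mpr (l.p.map_le_top _)]
  have e2 : l'.leak (fc A) = h l'.v (l'.p.map (fc A)) - h l'.v l'.p.top := by
    unfold FLab.leak
    rw [I_eq, sup_eq_left.mpr (l'.p.map_le_top _)]
  rw [e1, e2, h_cond_of l f hf, h_cond_of l' f' hf', h_top_of l f hf, h_top_of l' f' hf']
  have a1 := (Pool.Agent.Helper70.RK.st_E5.1 (β × F.Ω) l.T.Ω _ _ l.T.μ (fun τ => (f τ, l.p.π τ)) Prod.fst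
    (fun w => cg A w.2) l.T.nn).2.2
  have a2 := (Pool.Agent.Helper70.RK.st_E5.1 (β × F.Ω) l'.T.Ω _ _ l'.T.μ (fun τ => (f' τ, l'.p.π τ)) Prod.fst
    (fun w => cg A w.2) l'.T.nn).2.2
  have b1 := (Pool.Agent.Helper70.RK.st_E5.1 (β × F.Ω) l.T.Ω _ _ l.T.μ (fun τ => (f τ, l.p.π τ)) Prod.fst
    Prod.snd l.T.nn).2.2
  have b2 := (Pool.Agent.Helper70.RK.st_E5.1 (β × F.Ω) l'.T.Ω _ _ l'.T.μ (fun τ => (f' τ, l'.p.π τ)) Prod.fst
    Prod.snd l'.T.nn).2.2
  rw [hJ] at a1 b1
  have c1 := a1.symm.trans a2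
  have c2 := b1.symm.trans b2
  exact congrArg₂ (· - ·) c1 c2

/-! ### the amalgam of a label and an extension -/

variable {F G : FSp} (u : FLab F) (p : FPj G F)

theorem amx_push (φ : Quotient u.V → G.Ω → ℝ) :
    ∑ w : u.T.Ω × G.Ω, (u.amx p).sp.μ w * φ (mk u w.1) w.2 = ∑ g, G.μ g * ∑ v, kr u (p.π g) v * φ v g := by
  classical
  rw [Fintype.sum_prod_type_right]
  refine Finset.sum_congr rfl fun g _ => ?_
  by_cases h0 : G.μ g = 0
  · rw [h0, zero_mul]
    apply Finset.sum_eq_zero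
    intro τ _
    have h1 : (u.amx p).sp.μ (τ, g) = 0 := by
      by_contra hc
      exact ((u.amx p).supp (τ, g) hc).2.2 h0
    rw [h1, zero_mul]
  · have hx : F.μ (p.π g) ≠ 0 := p.supp g h0
    have h1 := kr_fib u (p.π g) (fun v => φ v g)
    have h2 : G.μ g * ∑ v, kr u (p.π g) v * φ v g =
        G.μ g / F.μ (p.π g) * (F.μ (p.π g) * ∑ v, kr u (p.π g) v * φ v g) := by
      field_simp
    rw [h2, h1, Finset.mul_sum]
    refine Finset.sum_congr rfl fun τ _ => ?_
    have e1 : (u.amx p).sp.μ (τ, g) = e1_ind (u.p.π τ = p.π g) * (u.T.μ τ * G.μ g / ms u.T.μ u.p.π (u.p.π τ)) := rfl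
    by_cases h3 : u.p.π τ = p.π g
    · have e2 : ms u.T.μ u.p.π (u.p.π τ) = F.μ (u.p.π τ) := by
        have e3 : ms u.T.μ u.p.π (u.p.π τ) = push u.p.π u.T.μ (u.p.π τ) := (push_ind _ _ _).symm
        rw [e3, u.p.law]
      rw [if_pos h3, e1, e1_ind_pos h3, one_mul, e2, h3]
      ring
    · rw [if_neg h3, e1, e1_ind_neg h3, zero_mul, zero_mul, mul_zero]

/-- sums of functions of the projection -/
theorem push_sum {Ω₁ Ω₂ : Type} [Fintype Ω₁] [Fintype Ω₂] (π : Ω₂ → Ω₁) (ν : Ω₂ → ℝ) (φ : Ω₁ → ℝ) :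
    ∑ y, push π ν y * φ y = ∑ x, ν x * φ (π x) := by
  classical
  have h1 : ∀ y, push π ν y * φ y = ∑ x, if π x = y then ν x * φ (π x) else 0 := by
    intro y
    rw [push_ind, Finset.sum_mul]
    refine Finset.sum_congr rfl fun x _ => ?_
    by_cases h : π x = y
    · rw [e1_ind_pos h, if_pos h, one_mul, h]
    · rw [e1_ind_neg h, if_neg h, zero_mul, zero_mul]
  rw [Finset.sum_congr rfl fun y _ => h1 y, Finset.sum_comm]
  refine Finset.sum_congr rfl fun x _ => ?_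
  rw [Finset.sum_ite_eq univ (π x) (fun _ => ν x * φ (π x)), if_pos (mem_univ _)]

/-- THE LAW OF THE VALUE AND THE SECOND COPY is the law of the value and the first copy -/
theorem law_snd {u : FLab F} {p : FPj G F} (hn : G.n = F.n) (q : FPj G F) (A : Setoid F.Ω) (hu : u.leak (fc A) = 0)
    (hpq : ∀ g, G.μ g ≠ 0 → cg A (p.π g) = cg A (q.π g)) :
    push (fun τ => (mk u τ, u.p.π τ)) u.T.μ =
      push (fun w : (u.up' p hn).T.Ω => (mk u w.1, (FLab.down q hn (u.up' p hn)).p.π w)) (u.up' p hn).T.μ := by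
  classical
  funext z
  rw [push_ind, push_ind]
  have h1 := amx_push u p (fun v g => e1_ind ((v, q.π g) = z))
  have h2 : ∑ w : (u.up' p hn).T.Ω, e1_ind ((mk u w.1, (FLab.down q hn (u.up' p hn)).p.π w) = z) *
      (u.up' p hn).T.μ w = ∑ w : u.T.Ω × G.Ω, (u.amx p).sp.μ w * e1_ind ((mk u w.1, q.π w.2) = z) :=
    Finset.sum_congr rfl fun w _ => mul_comm _ _
  rw [h2, h1]
  have h3 : ∀ g ∈ (univ : Finset G.Ω), G.μ g * ∑ v, kr u (p.π g) v * e1_ind ((v, q.π g) = z) =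
      G.μ g * ∑ v, kr u (q.π g) v * e1_ind ((v, q.π g) = z) := by
    intro g _
    by_cases h0 : G.μ g = 0
    · rw [h0, zero_mul, zero_mul]
    · congr 1
      refine Finset.sum_congr rfl fun v _ => ?_
      rw [kr_of_leak u A hu (p.supp g h0), kr_of_leak u A hu (q.supp g h0), qk_congr u A (hpq g h0)]
  rw [Finset.sum_congr rfl h3, ← push_sum q.π G.μ (fun y => ∑ v, kr u y v * e1_ind ((v, y) = z)), q.law,
    kr_push u (fun y v => e1_ind ((v, y) = z))]
  exact Finset.sum_congr rfl fun τ _ => mul_comm _ _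

/-- the leaks at the second copy, as a label of the second copy -/
theorem leak_dn {u : FLab F} {p : FPj G F} (hn : G.n = F.n) (q : FPj G F) (A : Setoid F.Ω) (hu : u.leak (fc A) = 0)
    (hpq : ∀ g, G.μ g ≠ 0 → cg A (p.π g) = cg A (q.π g)) (x : FL F) :
    (FLab.down q hn (u.up' p hn)).leak x = u.leak x := by
  refine (leak_law u (FLab.down q hn (u.up' p hn)) (mk u) (fun w => mk u w.1) (fun τ τ' => ?_) (fun w w' => ?_)
    (law_snd hn q A hu hpq) x).symm
  · exact (Quotient.eq (r := u.V)).symm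
  · exact (Quotient.eq (r := u.V)).symm

/-- THE LEAKS AT THE SECOND COPY -/
theorem leak_up_snd {u : FLab F} {p : FPj G F} (hn : G.n = F.n) (q : FPj G F) (A : Setoid F.Ω)
    (hu : u.leak (fc A) = 0) (hpq : ∀ g, G.μ g ≠ 0 → cg A (p.π g) = cg A (q.π g))
    (hm : q.map (fc A) = p.map (fc A)) (x : FL F) : (u.up' p hn).leak (q.map x) ≤ u.leak x := by
  rw [← leak_dn hn q A hu hpq x]
  have h0 : (FLab.down q hn (u.up' p hn)).leak x =
      I (u.up' p hn).v ((u.up' p hn).p.map q.top) ((u.up' p hn).p.map (q.map x)) := by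
    unfold FLab.leak
    have h1 : (FLab.down q hn (u.up' p hn)).p.map x = (u.up' p hn).p.map (q.map x) := FPj.comp_map _ _ _
    rw [h1]
    rfl
  have hA : (u.up' p hn).leak (q.map (fc A)) = 0 := by
    apply le_antisymm _ (FLab.leak_nonneg _ _)
    rw [hm, ← hu]
    exact u.up'_leak p hn (fc A)
  have t1 : (u.up' p hn).p.map q.top ≤ (u.up' p hn).p.top := (u.up' p hn).p.map_le_top _
  have t2 : (u.up' p hn).p.map (q.map x) ≤ (u.up' p hn).p.map q.top := (u.up' p hn).p.map_mono (q.map_le_top x)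
  have t3 : (u.up' p hn).p.map (q.map (fc A)) ≤ (u.up' p hn).p.map q.top :=
    (u.up' p hn).p.map_mono (q.map_le_top _)
  have h2 := I_chain_right (u.up' p hn).v ((u.up' p hn).p.map q.top) (u.up' p hn).p.top
    ((u.up' p hn).p.map (q.map x))
  rw [sup_eq_right.mpr t1, sup_eq_left.mpr t2] at h2
  have h3 : I (u.up' p hn).v (u.up' p hn).p.top ((u.up' p hn).p.map q.top) ≤
      I (u.up' p hn).v (u.up' p hn).p.top ((u.up' p hn).p.map (q.map (fc A))) := leak_cond t3 t1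
  have h4 : I (u.up' p hn).v (u.up' p hn).p.top ((u.up' p hn).p.map (q.map (fc A))) = 0 := hA
  have h5 : (u.up' p hn).leak (q.map x) = I (u.up' p hn).v (u.up' p hn).p.top ((u.up' p hn).p.map (q.map x)) := rfl
  rw [h0, h5, h2]
  linarith

/-! ### the doubled space -/

variable {S : Sp} {α : ℕ → Type} {C : ∀ k, (S.F k).Ω → α k}

/-- A LABEL WITHOUT ANY LEAK AT `C`: the leaks at the second copy are at most the leaks at the first copy -/
theorem up_snd (C : ∀ k, (S.F k).Ω → α k) (k : ℕ) (u : FLab (S.F k)) (hu : u.leak (kp C k) = 0) (x : FL (S.F k)) :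
    (u.up' ((q1 C).fp k) ((q1 C).hn k)).leak (((q2 C).fp k).map x) ≤ u.leak x := by
  apply leak_up_snd ((q1 C).hn k) ((q2 C).fp k) (Setoid.ker (C k)) hu
  · intro w hw
    apply Quotient.sound
    exact ⟨cpd_eq C k w hw, cpd_base C k w hw⟩
  · exact (kp_eq C k).symm

end

end Pool.Agent.Helper3.KL
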