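import Pool.Agent.Helper3.KL.Dgr
import Pool.Agent.Helper87.NSL.Costr
import Pool.Agent.Helper89.RAK.Idp

/-! K-LABELS: `ST` for K-labels in the literal forms of the consumers (87's `cndR`, 89's `STKm`). -/

set_option autoImplicit false

namespace Pool.Agent.Helper3.KL

open Finset Filter Topology Matrix Pool.Agent.Helper69.RK Pool.Agent.Helper31.EC Pool.Agent.Helper31.EC.Sp
open Pool.Agent.Helper40.EL Pool.Agent.Helper89.LX Pool.Agent.Helper3.LF Pool.Agent.Helper84.MT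
open Pool.Agent.Helper36.AM (STu)
open Pool.Agent.Helper87.NSL (cndR)

noncomputable section

variable {S T : Sp} {M D : ℕ} {E : ℕ → ℕ} {ι κ : Type}

/-- [STKd]: deep point `R`, conditions `R` and the windows `0`, any label `l` without any leak at `R` and without leak at
the windows `0` -/
theorem stkd_lab {g : ℕ} (hST : ∀ r, STm D M (lin g) (Fin r)) [Finite ι] (s : MSys S M (lin g) ι)
    {R : ∀ k, Setoid (S.F k).Ω} (hR : ∀ k, R k ≤ Setoid.ker (s.Q.cellv 1 k))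
    {l : Lab S} (hl : ∀ i, Nul S (fun k => (l k).leak ((s.lf i).win 0 k)))
    (hK : ∀ᶠ k in UF, (l k).leak (fc (R k)) = 0)
    {x : ∀ k, FD (S.F k) (Mon M D)} (hx : (gaq s.Q D).OptfK (LC.kz (fun k => fc (R k))) (cndR s R 0) x) :
    vol s.Q D x ≤ H (up1 l (s.Q.dg 1)) :=
  stk_R hST s (Eventually.of_forall fun k _ _ _ _ _ h => hR k h) (A := cndR s R 0) rfl (fun _ => rfl) hl hK hx

/-- [STKd], over the label of the form -/
theorem stkd {g : ℕ} (hST : ∀ r, STm D M (lin g) (Fin r)) [Finite ι] (s : MSys S M (lin g) ι)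
    {R : ∀ k, Setoid (S.F k).Ω} (hR : ∀ k, R k ≤ Setoid.ker (s.Q.cellv 1 k))
    {x : ∀ k, FD (S.F k) (Mon M D)} (hx : (gaq s.Q D).OptfK (LC.kz (fun k => fc (R k))) (cndR s R 0) x) :
    vol s.Q D x ≤ H (up1 (fun k => (x k).l) (s.Q.dg 1)) :=
  stkd_lab hST s hR (fun i => Gau.AdfK.dm _ hx.1 (some i)) hx.1.2 hx

/-- deep point `R`, conditions of the system -/
theorem stkd_cnd {g : ℕ} (hST : ∀ r, STm D M (lin g) (Fin r)) [Finite ι] (s : MSys S M (lin g) ι)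
    {R : ∀ k, Setoid (S.F k).Ω} (hR : ∀ k, R k ≤ Setoid.ker (s.Q.cellv 1 k))
    {l : Lab S} (hl : s.DMc 0 l) (hK : ∀ᶠ k in UF, (l k).leak (fc (R k)) = 0)
    {x : ∀ k, FD (S.F k) (Mon M D)} (hx : (gaq s.Q D).OptfK (LC.kz (fun k => fc (R k))) (s.cnd 0) x) :
    vol s.Q D x ≤ H (up1 l (s.Q.dg 1)) := by
  have hC : Dtm s.Q (qv R) := dtm_qv (Eventually.of_forall fun k _ _ _ _ _ h => hR k h)
  rw [← kp_qv] at hx
  obtain ⟨y, h1, h2, h3, h4, h5⟩ := stk_form hST s hC l (fun i => hl (some i)) (by rw [kp_qv]; exact hK)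
  refine (vol_optK_le hx ⟨Gau.Adf_iff.2 ⟨fun i => ?_, h4⟩, h1⟩).trans h5
  rcases i with _ | i
  · exact h3 (hl none)
  · exact h2 i

/-- 89's `STKm` -/
theorem stkm {g : ℕ} (hST : ∀ r, STm D M (lin g) (Fin r)) (ι : Type) [Finite ι] :
    Pool.Agent.Helper89.RAK.STKm D M (lin g) ι := by
  intro S s x hx
  have h1 := stk_pcd hST s (Gau.AdfK.dm _ hx.1) hx.1.2 hx
  exact h1.trans (H_up1_le _ _)

/-- all finite families, all large degrees -/
theorem stkm_u (hST : STu M) (g : ℕ) : ∃ D₁ : ℕ, ∀ D, D₁ ≤ D → ∀ (ι : Type) [Finite ι],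
    Pool.Agent.Helper89.RAK.STKm D M (lin g) ι := by
  obtain ⟨D₁, hD⟩ := hST g
  exact ⟨D₁, fun D hD' ι _ => stkm (hD D hD') ι⟩

end

end Pool.Agent.Helper3.KL
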